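import Pool.Agent.W931.LC.Props

/-! Project LC, part CARD: numbers of conditions. -/

set_option autoImplicit false

namespace Pool.Agent.W571.LC

open Cardinal Pool.Agent.W931.LC

theorem mk_Iio_lt' (c : Cardinal.{0}) (b : c.ord.ToType) : #(Set.Iio b) < c := by
  have h := Cardinal.mk_Iio_lt b (by simp)
  rwa [Cardinal.mk_ord_toType] at h

theorem mk_Co_le {mu ka : Cardinal.{0}} (hr : ka.IsRegular) (hu : ℵ₀ < ka)
    (hs : ∀ ν < ka, (2 : Cardinal.{0}) ^ ν < ka) (hmk : mu < ka) : #(Co mu ka) ≤ ka := by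
  classical
  have hb : ∀ f : Co mu ka, ∃ b : ka.ord.ToType, ∀ a x, f.f a x ≠ none → a < b := by
    intro f
    obtain ⟨b, hb⟩ := bdd_ord hr (Prod.fst '' {z : ka.ord.ToType × mu.ord.ToType | f.f z.1 z.2 ≠ none})
      ((Cardinal.mk_image_le).trans_lt (f.small.trans hmk))
    exact ⟨b, fun a x h => hb a ⟨(a, x), h, rfl⟩⟩
  choose B hB using hb
  let G : Co mu ka → Σ b : ka.ord.ToType, (Set.Iio b × mu.ord.ToType → Option (Set.Iio b)) :=
    fun f => ⟨B f, fun z => if h : ∃ d, f.f z.1 z.2 = some d ∧ d < B f then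
      some ⟨h.choose, h.choose_spec.2⟩ else none⟩
  have hG : Function.Injective G := by
    intro f g hfg
    have h1 : B f = B g := congrArg Sigma.fst hfg
    have h2 : ∀ (b b' : ka.ord.ToType) (u : Set.Iio b × mu.ord.ToType → Option (Set.Iio b))
        (u' : Set.Iio b' × mu.ord.ToType → Option (Set.Iio b')), b = b' →
        (⟨b, u⟩ : Σ b : ka.ord.ToType, (Set.Iio b × mu.ord.ToType → Option (Set.Iio b))) = ⟨b', u'⟩ →
        ∀ a (ha : a < b) (ha' : a < b') x, (u (⟨a, ha⟩, x)).map Subtype.val =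
          (u' (⟨a, ha'⟩, x)).map Subtype.val := by
      rintro b _ u u' rfl h a ha ha' x
      have h3 : u = u' := eq_of_heq (Sigma.mk.inj h).2
      rw [h3]
    have key : ∀ (f : Co mu ka) a (ha : a < B f) x,
        (((G f).2 (⟨a, ha⟩, x)).map Subtype.val) = f.f a x := by
      intro f a ha x
      show ((if h : ∃ d, f.f a x = some d ∧ d < B f then
        some (⟨h.choose, h.choose_spec.2⟩ : Set.Iio (B f)) else none).map Subtype.val) = f.f a x
      by_cases h : ∃ d, f.f a x = some d ∧ d < B f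
      · rw [dif_pos h, Option.map_some]
        exact h.choose_spec.1.symm
      · rw [dif_neg h, Option.map_none]
        rcases hd : f.f a x with _ | d
        · rfl
        · exact absurd ⟨d, hd, (f.reg a x d hd).trans ha⟩ h
    have h3 : f.f = g.f := by
      funext a x
      by_cases ha : a < B f
      · have ha' : a < B g := h1 ▸ ha
        have h4 := h2 (B f) (B g) (G f).2 (G g).2 h1 hfg a ha ha' x
        rw [key f a ha x, key g a ha' x] at h4
        exact h4
      · have ha' : ¬ a < B g := h1 ▸ ha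
        have h5 : f.f a x = none := by
          by_contra h
          exact ha (hB f a x h)
        have h6 : g.f a x = none := by
          by_contra h
          exact ha' (hB g a x h)
        rw [h5, h6]
    exact Co.ext h3
  refine (Cardinal.mk_le_of_injective hG).trans ?_
  rw [Cardinal.mk_sigma]
  have h1 : ∀ b : ka.ord.ToType, #(Set.Iio b × mu.ord.ToType → Option (Set.Iio b)) ≤ ka := by
    intro b
    set c : Cardinal.{0} := max (max #(Set.Iio b) mu) ℵ₀ with hc
    have hc0 : ℵ₀ ≤ c := le_max_right _ _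
    have hck : c < ka := max_lt (max_lt (mk_Iio_lt' ka b) hmk) hu
    have h2 : #(Option (Set.Iio b)) ≤ 2 ^ c := by
      rw [Cardinal.mk_option]
      have h3 : #(Set.Iio b) + 1 ≤ c := by
        refine Cardinal.add_le_of_le hc0 ((le_max_left _ _).trans (le_max_left _ _)) ?_
        exact (Cardinal.one_lt_aleph0.le).trans hc0
      exact h3.trans (Cardinal.cantor c).le
    have h4 : #(Set.Iio b × mu.ord.ToType) ≤ c := by
      rw [Cardinal.mk_prod, Cardinal.lift_id, Cardinal.lift_id, Cardinal.mk_ord_toType]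
      exact Cardinal.mul_le_of_le hc0 ((le_max_left _ _).trans (le_max_left _ _))
        ((le_max_right _ _).trans (le_max_left _ _))
    calc #(Set.Iio b × mu.ord.ToType → Option (Set.Iio b))
        = #(Option (Set.Iio b)) ^ #(Set.Iio b × mu.ord.ToType) := by simp
      _ ≤ (2 ^ c) ^ #(Set.Iio b × mu.ord.ToType) := Cardinal.power_le_power_right h2
      _ ≤ (2 ^ c) ^ c := Cardinal.power_le_power_left (by
          exact (Cardinal.power_pos c two_pos).ne') h4
      _ = 2 ^ c := by rw [← Cardinal.power_mul, Cardinal.mul_eq_self hc0]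
      _ ≤ ka := (hs c hck).le
  refine (Cardinal.sum_le_sum _ _ h1).trans ?_
  rw [Cardinal.sum_const, Cardinal.lift_id, Cardinal.lift_id, Cardinal.mk_ord_toType,
    Cardinal.mul_eq_self hu.le]

theorem mk_Co_le' (Q : Par) (j : I) : #(Co (Q.mu j) (Q.ka j)) ≤ Q.ka j :=
  mk_Co_le (Q.reg j) (Q.unc j) (Q.strong j) (Q.mu_lt_ka j)

theorem tCARD2 : S_CARD2 := by
  intro hG Q j
  rw [Cardinal.mk_pi]
  have h1 : Cardinal.prod (fun i : Set.Iio j => #(Co (Q.mu i) (Q.ka i))) ≤
      Cardinal.prod (fun _ : Set.Iio j => Q.lam j) :=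
    Cardinal.prod_le_prod _ _ fun i => (mk_Co_le' Q i).trans (Q.ka_le_lam i.2)
  refine h1.trans ?_
  rw [Cardinal.prod_const, Cardinal.lift_id, Cardinal.lift_id]
  have h2 : #(Set.Iio j) ≤ Q.lam j := (mk_Iio_lt' ℵ₁ j).le.trans (Q.lam_ge j)
  have h0 := Q.aleph0_le_lam j
  calc Q.lam j ^ #(Set.Iio j) ≤ Q.lam j ^ Q.lam j :=
        Cardinal.power_le_power_left (Cardinal.aleph0_pos.trans_le h0).ne' h2
    _ = 2 ^ Q.lam j := Cardinal.power_self_eq h0
    _ = Order.succ (Q.lam j) := hG _ h0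
    _ ≤ Order.succ (Q.lam j) := le_rfl

theorem tCARD1 : S_CARD1 := by
  intro hG Q j
  let e : (∀ i : Set.Iic j, Co (Q.mu i) (Q.ka i)) →
      (∀ i : Set.Iio j, Co (Q.mu i) (Q.ka i)) × Co (Q.mu j) (Q.ka j) := fun f =>
    (fun i => f ⟨i.1, (le_of_lt i.2 : i.1 ≤ j)⟩, f ⟨j, le_refl j⟩)
  have he : Function.Injective e := by
    intro f g h
    funext ⟨i, hi⟩
    rcases eq_or_lt_of_le (show i ≤ j from hi) with h1 | h1
    · subst h1
      exact congrArg Prod.snd h
    · exact congrFun (congrArg Prod.fst h) ⟨i, h1⟩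
  refine (Cardinal.mk_le_of_injective he).trans ?_
  rw [Cardinal.mk_prod, Cardinal.lift_id, Cardinal.lift_id]
  exact Cardinal.mul_le_of_le (Q.unc j).le
    ((tCARD2 hG Q j).trans (Q.succ_lt_ka j (Q.lam_lt_ka j)).le) (mk_Co_le' Q j)

theorem aleph1_le_top (Q : Par) : ℵ₁ ≤ Q.top := by
  have h : Nonempty I := by
    rw [← Cardinal.mk_ne_zero_iff, mk_ord_toType]
    exact (aleph0_pos.trans_le (aleph0_le_aleph 1)).ne'
  obtain ⟨j⟩ := h
  exact (Q.aleph1_lt_ka j).le.trans (Q.ka_le_top j)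

theorem tCARD3 : S_CARD3 := by
  intro hG Q
  have h : #Q.Cd = Cardinal.prod (fun j : I => #(Co (Q.mu j) (Q.ka j))) := Cardinal.mk_pi _
  rw [h]
  have h1 : Cardinal.prod (fun j : I => #(Co (Q.mu j) (Q.ka j))) ≤
      Cardinal.prod (fun _ : I => Q.top) :=
    Cardinal.prod_le_prod _ _ fun i => (mk_Co_le' Q i).trans (Q.ka_le_top i)
  refine h1.trans ?_
  rw [Cardinal.prod_const, Cardinal.lift_id, Cardinal.lift_id, mk_ord_toType]
  have h0 : ℵ₀ ≤ Q.top := (aleph0_le_aleph 1).trans (aleph1_le_top Q)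
  calc Q.top ^ (ℵ₁ : Cardinal.{0}) ≤ Q.top ^ Q.top :=
        Cardinal.power_le_power_left (Cardinal.aleph0_pos.trans_le h0).ne' (aleph1_le_top Q)
    _ = 2 ^ Q.top := Cardinal.power_self_eq h0
    _ = Order.succ Q.top := hG _ h0
    _ ≤ Order.succ Q.top := le_rfl

end Pool.Agent.W571.LC
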