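import Pool.Agent.W931.LC.Props

/-! Project LC, part POW2: GCH in the extension, the easy cases. -/

set_option autoImplicit false

namespace Pool.Agent.W571.LC

open Cardinal Pool.Agent.Helper669.Forcing Pool.Agent.Helper669.K Pool.Agent.Helper669.U
  Pool.Agent.Helper669.V Pool.Agent.W931.KH Pool.Agent.W931.LC

theorem powOnto_of_seqClosed {Q : Type} [Preorder Q] {χ ν μ : Cardinal.{0}}
    (hQ : SeqClosed χ Q) (hν : ν < χ) (hμ : 2 ^ ν ≤ μ) (q : Q) : q ∈ PowOnto Q ν μ := by
  classical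
  have hcard : #(Set ν.ord.ToType) ≤ #(μ.ord.ToType) := by
    rw [Cardinal.mk_set, Cardinal.mk_ord_toType, Cardinal.mk_ord_toType]
    exact hμ
  obtain ⟨j⟩ := hcard
  have hsurj : Function.Surjective (Function.invFun j) := Function.invFun_surjective j.injective
  refine mem_fex.2 fun q' _ => ⟨q', le_rfl,
    fun i x => {_p | x ∈ Function.invFun j i}, fun X => ?_⟩
  refine mem_fex.2 fun q'' _ => ?_
  obtain ⟨r, hr, hD⟩ := hQ.exists_forall_mem (N := ν.ord.ToType)
    (by rw [Cardinal.mk_ord_toType]; exact hν)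
    (fun x => meets (X x) ∪ fnot (meets (X x)))
    (by
      intro x p hp p' hp'
      rcases hp with hp | hp
      · exact Or.inl (down_meets _ _ hp _ hp')
      · exact Or.inr (down_fnot _ _ hp _ hp'))
    (by
      intro x p
      by_cases h : ∃ p' ≤ p, p' ∈ meets (X x)
      · obtain ⟨p', hp', h'⟩ := h
        exact ⟨p', hp', Or.inl h'⟩
      · refine ⟨p, le_rfl, Or.inr fun p' hp' h' => h ⟨p', hp', h'⟩⟩) q''
  obtain ⟨i, hi⟩ := hsurj {x | r ∈ meets (X x)}
  refine ⟨r, hr, i, ?_, ?_⟩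
  · intro y
    refine mem_fimp.2 fun q1 hq1 h1 => ⟨q1, le_rfl, ?_⟩
    obtain ⟨_, _, s, hs, _⟩ := h1 q1 le_rfl
    have hy : y ∈ Function.invFun j i := hs
    rw [hi] at hy
    exact down_meets _ _ hy _ hq1
  · intro y
    refine mem_fimp.2 fun q1 hq1 h1 => ⟨q1, le_rfl, ?_⟩
    rcases hD y with h | h
    · apply meets_of_mem
      show y ∈ Function.invFun j i
      rw [hi]
      exact h
    · exact absurd h1 (h q1 hq1)

theorem tPOW6 : S_POW6 := by
  intro hG Q ν hν hj p
  have hne : Nonempty I := by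
    rw [← Cardinal.mk_ne_zero_iff, mk_ord_toType]
    exact (aleph0_pos.trans_le (aleph0_le_aleph 1)).ne'
  obtain ⟨j0, -, hj0⟩ := (wellFounded_lt (α := I)).has_min Set.univ Set.univ_nonempty
  exact powOnto_of_seqClosed
    (Q.seqClosed_Cd j0 fun j => not_lt.1 (hj0 j (Set.mem_univ j))) (hj j0) (hG ν hν).le p

theorem tPOW5 (h : S_CARD3) : S_POW5 := by
  classical
  intro hG Q ν hν p
  have hI : Nonempty I := by
    rw [← Cardinal.mk_ne_zero_iff, mk_ord_toType]
    exact (aleph0_pos.trans_le (aleph0_le_aleph 1)).ne'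
  have hν0 : ℵ₀ ≤ ν := by
    obtain ⟨j⟩ := hI
    exact (((Q.unc j).le.trans (Q.ka_le_top j)).trans (Order.le_succ _)).trans hν
  have hcard : #(ν.ord.ToType → Set Q.Cd) ≤ #((Order.succ ν).ord.ToType) := by
    have h1 : #(ν.ord.ToType → Set Q.Cd) = (2 ^ #Q.Cd) ^ ν := by
      rw [← Cardinal.mk_set]
      simp
    rw [h1, Cardinal.mk_ord_toType, ← Cardinal.power_mul, ← hG ν hν0]
    refine Cardinal.power_le_power_left two_ne_zero ?_
    exact Cardinal.mul_le_of_le hν0 ((h hG Q).trans hν) le_rfl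
  obtain ⟨j⟩ := hcard
  have hsurj : Function.Surjective (Function.invFun j) := Function.invFun_surjective j.injective
  refine mem_fex.2 fun q' _ => ⟨q', le_rfl, Function.invFun j, fun X => ?_⟩
  obtain ⟨i, hi⟩ := hsurj X
  refine mem_fex.2 fun q'' _ => ⟨q'', le_rfl, i, ?_, ?_⟩
  · intro y
    rw [hi]
    exact mem_fimp.2 fun q1 _ h1 => ⟨q1, le_rfl, h1⟩
  · intro y
    rw [hi]
    exact mem_fimp.2 fun q1 _ h1 => ⟨q1, le_rfl, h1⟩

theorem tPOW2 (h1 : S_DEC2) (h2 : S_CARD2) : S_POW2 := by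
  classical
  intro hG Q j ν hν hνm p
  have hν0 : ℵ₀ ≤ ν := ((Q.aleph0_le_lam j).trans (Order.le_succ _)).trans hν
  let B : Type := ∀ i : Set.Iio j, Co (Q.mu i) (Q.ka i)
  let rs : Q.Cd → B := fun p i => p i
  have hcard : #(Set (ν.ord.ToType × B)) ≤ #((Order.succ ν).ord.ToType) := by
    rw [Cardinal.mk_set, Cardinal.mk_ord_toType, Cardinal.mk_prod, Cardinal.lift_id,
      Cardinal.lift_id, Cardinal.mk_ord_toType, ← hG ν hν0]
    refine Cardinal.power_le_power_left two_ne_zero ?_
    exact Cardinal.mul_le_of_le hν0 le_rfl ((h2 hG Q j).trans hν)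
  obtain ⟨e⟩ := hcard
  have hsurj : Function.Surjective (Function.invFun e) := Function.invFun_surjective e.injective
  refine mem_fex.2 fun q' _ => ⟨q', le_rfl,
    fun i x => {p | (x, rs p) ∈ Function.invFun e i}, fun X => ?_⟩
  refine mem_fex.2 fun q'' _ => ?_
  obtain ⟨q, hq, hD⟩ := h1 hG Q j ν.ord.ToType (by rw [Cardinal.mk_ord_toType]; exact hνm)
    (fun x => meets (X x) ∪ fnot (meets (X x)))
    (by
      intro x p hp p' hp'
      rcases hp with hp | hp
      · exact Or.inl (down_meets _ _ hp _ hp')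
      · exact Or.inr (down_fnot _ _ hp _ hp'))
    (by
      intro x p
      by_cases h : ∃ p' ≤ p, p' ∈ meets (X x)
      · obtain ⟨p', hp', h'⟩ := h
        exact ⟨p', hp', Or.inl h'⟩
      · refine ⟨p, le_rfl, Or.inr fun p' hp' h' => h ⟨p', hp', h'⟩⟩) q''
  let E : B → Q.Cd := fun a i => if h : i < j then a ⟨i, h⟩ else q i
  have hE : ∀ b : Q.Cd, E (rs b) = Q.mix' j b q := by
    intro b
    funext i
    by_cases h : i < j
    · simp only [E, Par.mix', dif_pos h, if_pos h]
      rfl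
    · simp only [E, Par.mix', dif_neg h, if_neg h]
  obtain ⟨i, hi⟩ := hsurj {z | E z.2 ∈ meets (X z.1)}
  refine ⟨q, hq, i, ?_, ?_⟩
  · intro y
    refine mem_fimp.2 fun q1 hq1 hm => ?_
    obtain ⟨r', hr', s, hs, hrs⟩ := hm q1 le_rfl
    have hy : (y, rs s) ∈ Function.invFun e i := hs
    rw [hi] at hy
    have hy' : E (rs s) ∈ meets (X y) := hy
    rw [hE] at hy'
    refine ⟨r', hr', down_meets _ _ hy' _ ?_⟩
    intro i'
    by_cases h : i' < j
    · have h3 : Q.mix' j s q i' = s i' := if_pos h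
      rw [h3]
      exact hrs i'
    · have h3 : Q.mix' j s q i' = q i' := if_neg h
      rw [h3]
      exact (hr'.trans hq1) i'
  · intro y
    refine mem_fimp.2 fun r hr hm => ?_
    obtain ⟨b', hb', hb⟩ := hD y r
    have hle1 : Q.mix' j b' r ≤ r := by
      intro i'
      by_cases h : i' < j
      · have h3 : Q.mix' j b' r i' = b' i' := if_pos h
        rw [h3]
        exact hb' i'
      · have h3 : Q.mix' j b' r i' = r i' := if_neg h
        rw [h3]
    have hle2 : Q.mix' j b' r ≤ Q.mix' j b' q := by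
      intro i'
      by_cases h : i' < j
      · have h3 : Q.mix' j b' r i' = b' i' := if_pos h
        have h4 : Q.mix' j b' q i' = b' i' := if_pos h
        rw [h3, h4]
      · have h3 : Q.mix' j b' r i' = r i' := if_neg h
        have h4 : Q.mix' j b' q i' = q i' := if_neg h
        rw [h3, h4]
        exact hr i'
    have hX : Q.mix' j b' r ∈ meets (X y) := down_meets _ _ hm _ hle1
    refine ⟨Q.mix' j b' r, hle1, meets_of_mem ?_⟩
    rcases hb with hb | hb
    · show (y, rs (Q.mix' j b' r)) ∈ Function.invFun e i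
      rw [hi]
      show E (rs (Q.mix' j b' r)) ∈ meets (X y)
      have h5 : rs (Q.mix' j b' r) = rs b' := by
        funext i'
        exact if_pos i'.2
      rw [h5, hE]
      exact hb
    · exact absurd hX (hb _ hle2)

end Pool.Agent.W571.LC
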